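import Pool.Agent.K1H70.KR.Step2
import Pool.Agent.H628R4.TP.Defs

set_option autoImplicit false
set_option linter.unusedSectionVars false
set_option linter.unusedVariables false

/-! # Krylov determinants: functional equations -/

namespace Pool.Agent.K1H70.KR

open MvPolynomial

variable {m r : ℕ}

theorem Mpq_tr (p q : Fin m) :
    (fun u w : Fin m × (Fin m ⊕ Fin r) => Mpq p q w u) = Mpq q p := by
  funext u w
  unfold Mpq
  congr 1
  · refine if_congr ?_ rfl rfl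
    constructor
    · rintro ⟨h1, h2, h3⟩
      exact ⟨h2, h1, h3.symm⟩
    · rintro ⟨h1, h2, h3⟩
      exact ⟨h2, h1, h3.symm⟩
  · refine if_congr ?_ rfl rfl
    constructor
    · rintro ⟨h1, h2, h3⟩
      exact ⟨h1.symm, h3, h2⟩
    · rintro ⟨h1, h2, h3⟩
      exact ⟨h1.symm, h3, h2⟩

theorem adm (j : Fin r) : Adm (vj (m + 1) j) (fun a : Fin m =>
    (Mpq a.succ 0 : Fin (m + 1) × (Fin (m + 1) ⊕ Fin r) → _ → ℝ)) := by
  classical
  constructor
  · intro a u b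
    unfold Mpq vj
    have h1 : ¬ (u.1 = b ∧ u.2 = Sum.inl a.succ ∧ (Sum.inr j : Fin (m + 1) ⊕ Fin r) = Sum.inl 0) := by
      rintro ⟨-, -, h⟩
      cases h
    simp only
    rw [if_neg h1, sub_zero]
    have h2 : (u.1 = 0 ∧ b = a.succ ∧ u.2 = Sum.inr j) ↔
        (u = ((0 : Fin (m + 1)), (Sum.inr j : Fin (m + 1) ⊕ Fin r)) ∧ b = a.succ) := by
      constructor
      · rintro ⟨h1, h2, h3⟩
        exact ⟨Prod.ext h1 h3, h2⟩
      · rintro ⟨h1, h2⟩
        rw [h1]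
        exact ⟨rfl, h2, rfl⟩
    by_cases h3 : u = ((0 : Fin (m + 1)), (Sum.inr j : Fin (m + 1) ⊕ Fin r)) ∧ b = a.succ
    · rw [if_pos h3, if_pos (h2.2 h3)]
    · rw [if_neg h3, if_neg fun h => h3 (h2.1 h)]
  · intro a b w
    unfold Mpq vj
    have h1 : ¬ (b = w.1 ∧ (Sum.inr j : Fin (m + 1) ⊕ Fin r) = Sum.inl a.succ ∧ w.2 = Sum.inl 0) := by
      rintro ⟨-, h, -⟩
      cases h
    simp only
    rw [if_neg h1, sub_zero]
    have h2 : (b = 0 ∧ w.1 = a.succ ∧ Sum.inr j = w.2) ↔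
        (b = 0 ∧ w = (a.succ, (Sum.inr j : Fin (m + 1) ⊕ Fin r))) := by
      constructor
      · rintro ⟨h1, h2, h3⟩
        exact ⟨h1, Prod.ext h2 h3.symm⟩
      · rintro ⟨h1, h2⟩
        rw [h2]
        exact ⟨h1, rfl, rfl⟩
    by_cases h3 : b = 0 ∧ w = (a.succ, (Sum.inr j : Fin (m + 1) ⊕ Fin r))
    · rw [if_pos h3, if_pos (h2.2 h3)]
    · rw [if_neg h3, if_neg fun h => h3 (h2.1 h)]

/-- pairings with the powers of `f` -/
def PiP {σ : Type} (f : MvPolynomial σ ℂ) : Prop := ∀ Q ∈ W σ, ∃ q : Polynomial ℂ, ∀ n : ℕ,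
  fis (f ^ (n + 1)) (Q (f ^ n)) = q.eval (n : ℂ) * fis (f ^ (n + 1)) (f ^ (n + 1))

theorem kry_step (d : Fin r → ℕ) (e : (Σ j, Fin (d j)) ≃ Fin (m + 1)) (j : Fin r)
    (hj : 0 < d j) (hmax : ∀ l, d l ≤ d j)
    (e' : (Σ l, Fin (Function.update d j (d j - 1) l)) ≃ Fin m)
    (h : PiP (map (Int.castRingHom ℂ) (kry (Function.update d j (d j - 1)) e'))) :
    PiP (map (Int.castRingHom ℂ) (kry d e)) ∧ ∀ n : ℕ,
      fis (map (Int.castRingHom ℂ) (kry d e) ^ n) (map (Int.castRingHom ℂ) (kry d e) ^ n) =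
        (((d j * n + m).factorial : ℂ) / m.factorial) *
          fis (map (Int.castRingHom ℂ) (kry (Function.update d j (d j - 1)) e') ^ n)
            (map (Int.castRingHom ℂ) (kry (Function.update d j (d j - 1)) e') ^ n) := by
  obtain ⟨ε, hε, hsl⟩ := sl_kry d e j hj hmax e'
  set F := map (Int.castRingHom ℂ) (kry d e) with hF
  set F' := map (Int.castRingHom ℂ) (kry (Function.update d j (d j - 1)) e') with hF'
  have hinv := t_INV (m + 1) r d e
  rw [← hF] at hinv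
  have hE : Eu (vj (m + 1) j) F = (d j : ℂ) • F := hinv.2 j
  have h1 : ∀ a : Fin m, lin (Mpq a.succ 0) F = 0 := fun a =>
    hinv.1 a.succ 0 (Fin.succ_ne_zero a)
  have h2 : ∀ a : Fin m, lin (fun u w => Mpq a.succ 0 w u) F = 0 := fun a => by
    rw [Mpq_tr]
    exact hinv.1 0 a.succ (Fin.succ_ne_zero a).symm
  have hn : ∀ n : ℕ, fis (F ^ n) (F ^ n) = (((d j * n + m).factorial : ℂ) / m.factorial) *
      fis (F' ^ n) (F' ^ n) := by
    intro n
    rw [norm_sl (vj (m + 1) j) _ (vj_inj j) (adm j) (d j) F hE h1 h2 n, hsl, smul_pow,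
      ← map_pow (rename (io j)), map_smul, map_smul, LinearMap.smul_apply,
      K1H24.KR.fis_rename _ (io_inj j), smul_eq_mul, smul_eq_mul, ← mul_assoc (ε ^ n), ← mul_pow, hε,
      one_pow, one_mul]
  refine ⟨?_, hn⟩
  intro Q hQ
  obtain ⟨K, Qi, hQi, hpair⟩ := pair_sl (vj (m + 1) j) _ (vj_inj j) (adm j) (d j) F hE h1 h2 Q hQ
  have h3 : ∀ i, ∃ q : Polynomial ℂ, ∀ n : ℕ, fis (rename (io j) (F' ^ (n + 1)))
      (Qi i (rename (io j) (F' ^ n))) = q.eval (n : ℂ) * fis (F' ^ (n + 1)) (F' ^ (n + 1)) := by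
    intro i
    obtain ⟨Q', hQ', h4⟩ := K1H24.KR.t_RED _ _ (io j) (io_inj j) (Qi i) (hQi i)
    obtain ⟨q, hq⟩ := h Q' hQ'
    exact ⟨q, fun n => by rw [h4, hq]⟩
  choose q hq using h3
  refine ⟨∑ i ∈ Finset.range K, Polynomial.X ^ i * (Polynomial.C ε * q i), fun n => ?_⟩
  rw [hpair, hn, Polynomial.eval_finsetSum, hsl, Finset.mul_sum, Finset.sum_mul]
  refine Finset.sum_congr rfl fun i _ => ?_
  rw [smul_pow, smul_pow, ← map_pow (rename (io j)), ← map_pow (rename (io j)), map_smul, map_smul,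
    map_smul, LinearMap.smul_apply, hq, Polynomial.eval_mul, Polynomial.eval_mul,
    Polynomial.eval_pow, Polynomial.eval_X, Polynomial.eval_C, smul_eq_mul, smul_eq_mul]
  have h5 : ε ^ n * ε ^ n = 1 := by rw [← mul_pow, hε, one_pow]
  rw [pow_succ]
  linear_combination ((((d j * (n + 1) + m).factorial : ℂ) / m.factorial) * (n : ℂ) ^ i * ε *
    ((q i).eval (n : ℂ) * fis (F' ^ (n + 1)) (F' ^ (n + 1)))) * h5

theorem fis_one {σ : Type} : fis (1 : MvPolynomial σ ℂ) 1 = 1 := by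
  have h := fis_monomial (0 : σ →₀ ℕ) 1 (1 : MvPolynomial σ ℂ)
  rw [show monomial (0 : σ →₀ ℕ) (1 : ℂ) = 1 from rfl] at h
  rw [h]
  simp

/-- **The pairings with the powers of the determinant.** -/
theorem kry_all : ∀ (m : ℕ) (d : Fin r → ℕ) (e : (Σ j, Fin (d j)) ≃ Fin m) (c : Fin m → ℕ),
    Prof d c → PiP (map (Int.castRingHom ℂ) (kry d e)) ∧ ∀ n : ℕ,
      fis (map (Int.castRingHom ℂ) (kry d e) ^ n) (map (Int.castRingHom ℂ) (kry d e) ^ n) =
        ∏ k : Fin m, (((c k * n + (m - (k : ℕ) - 1)).factorial : ℂ) / (m - (k : ℕ) - 1).factorial) := by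
  intro m
  induction m with
  | zero =>
    intro d e c hc
    have h1 : map (Int.castRingHom ℂ) (kry d e) = 1 := by
      have h2 : kry d e = 1 := by
        unfold kry kdet
        exact Matrix.det_fin_zero
      rw [h2, map_one]
    rw [h1]
    constructor
    · intro Q hQ
      refine ⟨Polynomial.C (fis 1 (Q 1)), fun n => ?_⟩
      rw [one_pow, one_pow, Polynomial.eval_C, fis_one, mul_one]
    · intro n
      rw [one_pow, fis_one]
      simp
  | succ m ih =>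
    intro d e c hc
    obtain ⟨j, h1, h2, h3, ⟨e'⟩, h4⟩ := hc.step e
    obtain ⟨h5, h6⟩ := ih _ e' _ h4
    obtain ⟨h7, h8⟩ := kry_step d e j h2 h3 e' h5
    refine ⟨h7, fun n => ?_⟩
    rw [h8, h6, Fin.prod_univ_succ, h1]
    congr 1
    refine Finset.prod_congr rfl fun k _ => ?_
    rw [Fin.val_succ, Nat.add_sub_add_right]

theorem weyl_mem {σ : Type} (Q : Module.End ℂ (MvPolynomial σ ℂ))
    (hQ : Q ∈ Pool.Agent.H628R4.TP.weylS σ) : Q ∈ W σ := by
  induction hQ using Algebra.adjoin_induction with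
  | mem x hx =>
    rcases hx with ⟨i, rfl⟩ | ⟨i, rfl⟩
    · exact K1H24.KR.gen_mem (Sum.inl i)
    · exact K1H24.KR.gen_mem (Sum.inr i)
  | algebraMap a =>
    rw [Algebra.algebraMap_eq_smul_one]
    exact (W σ).smul_mem _ K1H24.KR.W_one
  | add x y _ _ hx hy => exact (W σ).add_mem hx hy
  | mul x y _ _ hx hy => exact K1H24.KR.W_mul hx hy

/-- the factor -/
noncomputable def Bf (m : ℕ) (c : Fin m → ℕ) : Polynomial ℂ :=
  ∏ k : Fin m, ∏ j ∈ Finset.range (c k), (Polynomial.C (c k : ℂ) * Polynomial.X +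
    Polynomial.C ((m - (k : ℕ) + j : ℕ) : ℂ))

/-- **Divisibility.** -/
theorem Bf_dvd (d : Fin r → ℕ) (e : (Σ j, Fin (d j)) ≃ Fin m) (c : Fin m → ℕ) (hc : Prof d c)
    (b : Polynomial ℂ) (hb : Pool.Agent.H628R4.TP.IsBFunction
      (map (Int.castRingHom ℂ) (kry d e)) b) : Bf m c ∣ b := by
  obtain ⟨P, hP⟩ := hb
  obtain ⟨h1, h2⟩ := kry_all m d e c hc
  set F := map (Int.castRingHom ℂ) (kry d e) with hF
  have h3 : ∀ i : ℕ, ∃ q : Polynomial ℂ, ∀ s : ℕ,
      fis (F ^ s) ((P i : Module.End ℂ (MvPolynomial _ ℂ)) (F ^ (s + 1))) =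
        q.eval (s : ℂ) * fis (F ^ (s + 1)) (F ^ (s + 1)) := by
    intro i
    obtain ⟨Q', hQ', h4⟩ := K1H24.KR.W_adj (weyl_mem _ (P i).2)
    obtain ⟨q, hq⟩ := h1 Q' hQ'
    exact ⟨q, fun s => by rw [K1H24.KR.fis_comm, h4, hq]⟩
  choose q hq using h3
  have h4 : ∀ s : ℕ, b.eval (s : ℂ) * fis (F ^ s) (F ^ s) =
      (∑ i ∈ P.support, Polynomial.X ^ i * q i).eval (s : ℂ) * fis (F ^ (s + 1)) (F ^ (s + 1)) := by
    intro s
    have h5 := congrArg (fis (F ^ s)) (hP s)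
    rw [← smul_eq_C_mul, map_smul, smul_eq_mul, Finsupp.sum, map_sum] at h5
    rw [h5, Polynomial.eval_finsetSum, Finset.sum_mul]
    refine Finset.sum_congr rfl fun i _ => ?_
    rw [map_smul, hq, smul_eq_mul, Polynomial.eval_mul, Polynomial.eval_pow, Polynomial.eval_X,
      mul_assoc]
  have h5 : ∀ s : ℕ, fis (F ^ (s + 1)) (F ^ (s + 1)) = (Bf m c).eval (s : ℂ) * fis (F ^ s) (F ^ s) := by
    intro s
    rw [h2, h2, Bf, Polynomial.eval_prod, ← Finset.prod_mul_distrib]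
    refine Finset.prod_congr rfl fun k _ => ?_
    rw [Polynomial.eval_prod]
    have h6 : (c k * (s + 1) + (m - (k : ℕ) - 1)).factorial =
        (c k * s + (m - (k : ℕ) - 1)).factorial * ∏ j ∈ Finset.range (c k),
          (c k * s + (m - (k : ℕ) + j)) := by
      have h7 := Nat.factorial_mul_ascFactorial (c k * s + (m - (k : ℕ) - 1)) (c k)
      rw [Nat.ascFactorial_eq_prod_range] at h7
      rw [show c k * (s + 1) + (m - (k : ℕ) - 1) = c k * s + (m - (k : ℕ) - 1) + c k by ring, ← h7]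
      congr 1
      refine Finset.prod_congr rfl fun j _ => ?_
      have := k.2
      omega
    rw [h6]
    push_cast
    have h8 : ∀ j ∈ Finset.range (c k), (Polynomial.C (c k : ℂ) * Polynomial.X +
        Polynomial.C (((m - (k : ℕ) : ℕ) : ℂ) + (j : ℂ))).eval (s : ℂ) =
        (c k : ℂ) * s + (((m - (k : ℕ) : ℕ) : ℂ) + j) := by
      intro j _
      rw [Polynomial.eval_add, Polynomial.eval_mul, Polynomial.eval_C, Polynomial.eval_X,
        Polynomial.eval_C]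
    rw [Finset.prod_congr rfl h8]
    ring
  have h6 : ∀ s : ℕ, fis (F ^ s) (F ^ s) ≠ 0 := by
    intro s
    rw [h2]
    refine Finset.prod_ne_zero_iff.2 fun k _ => ?_
    exact div_ne_zero (by exact_mod_cast Nat.factorial_ne_zero _)
      (by exact_mod_cast Nat.factorial_ne_zero _)
  refine ⟨∑ i ∈ P.support, Polynomial.X ^ i * q i, ?_⟩
  refine Polynomial.eq_of_infinite_eval_eq _ _ ?_
  refine Set.Infinite.mono (s := Set.range fun s : ℕ => (s : ℂ)) ?_
    (Set.infinite_range_of_injective Nat.cast_injective)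
  rintro _ ⟨s, rfl⟩
  have h7 := h4 s
  rw [h5] at h7
  refine mul_right_cancel₀ (h6 s) ?_
  rw [Polynomial.eval_mul]
  linear_combination h7

/-- **Multiplicities.** -/
theorem count_le (d : Fin r → ℕ) (e : (Σ j, Fin (d j)) ≃ Fin m) (c : Fin m → ℕ) (hc : Prof d c)
    (b : Polynomial ℂ) (hb0 : b ≠ 0) (hb : Pool.Agent.H628R4.TP.IsBFunction
      (map (Int.castRingHom ℂ) (kry d e)) b) (x : ℝ) :
    Nat.card {k : Fin m // 0 < c k ∧ x = -(((m - (k : ℕ) : ℕ) : ℝ) / c k)} ≤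
      b.rootMultiplicity (x : ℂ) := by
  classical
  rw [Polynomial.le_rootMultiplicity_iff hb0]
  refine dvd_trans ?_ (Bf_dvd d e c hc b hb)
  rw [Nat.card_eq_fintype_card, Fintype.card_subtype]
  set S := Finset.univ.filter fun k : Fin m => 0 < c k ∧ x = -(((m - (k : ℕ) : ℕ) : ℝ) / c k) with hS
  rw [← Finset.prod_const]
  refine dvd_trans (Finset.prod_dvd_prod_of_dvd _ (fun k => ∏ j ∈ Finset.range (c k),
    (Polynomial.C (c k : ℂ) * Polynomial.X + Polynomial.C ((m - (k : ℕ) + j : ℕ) : ℂ))) ?_)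
    (Finset.prod_dvd_prod_of_subset _ _ _ (Finset.subset_univ _))
  intro k hk
  rw [hS, Finset.mem_filter] at hk
  refine dvd_trans ?_ (Finset.dvd_prod_of_mem _ (Finset.mem_range.2 hk.2.1))
  rw [Polynomial.dvd_iff_isRoot, Polynomial.IsRoot, Polynomial.eval_add, Polynomial.eval_mul,
    Polynomial.eval_C, Polynomial.eval_X, Polynomial.eval_C, hk.2.2]
  have h1 : (c k : ℂ) ≠ 0 := by exact_mod_cast hk.2.1.ne'
  push_cast
  field_simp
  ring

end Pool.Agent.K1H70.KR
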