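import Pool.Agent.K1H70.KR.Stm

set_option autoImplicit false

/-! # Krylov determinants: algebra -/

namespace Pool.Agent.K1H70.KR

open Matrix

section

variable {R S : Type} [CommRing R] [CommRing S] {m r : ℕ}

/-- the matrix `A` of the data -/
def Am (x : Fin m × (Fin m ⊕ Fin r) → R) : Matrix (Fin m) (Fin m) R :=
  Matrix.of fun a b : Fin m => x (a, Sum.inl b)

/-- the vector `v_j` of the data -/
def vm (x : Fin m × (Fin m ⊕ Fin r) → R) (j : Fin r) : Fin m → R := fun a => x (a, Sum.inr j)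

theorem kmat_row (d : Fin r → ℕ) (x : Fin m × (Fin m ⊕ Fin r) → R) (p : Σ j, Fin (d j)) :
    kmat d x p = (Am x ^ (p.2 : ℕ)).mulVec (vm x p.1) := rfl

theorem kmat_map (φ : R →+* S) (d : Fin r → ℕ) (x : Fin m × (Fin m ⊕ Fin r) → R) :
    kmat d (fun u => φ (x u)) = (kmat d x).map φ := by
  ext p a
  rw [Matrix.map_apply, kmat_row, kmat_row]
  have h1 : Am (fun u => φ (x u)) = (Am x).map φ := rfl
  have h2 : vm (fun u => φ (x u)) p.1 = φ ∘ vm x p.1 := rfl
  rw [h1, h2, ← Matrix.map_pow, RingHom.map_mulVec]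

theorem kdet_hom (φ : R →+* S) (d : Fin r → ℕ) (e : (Σ j, Fin (d j)) ≃ Fin m)
    (x : Fin m × (Fin m ⊕ Fin r) → R) : kdet d e (fun u => φ (x u)) = φ (kdet d e x) := by
  unfold kdet
  rw [kmat_map, RingHom.map_det]
  rfl

/-- change of basis -/
theorem kdet_equiv (d : Fin r → ℕ) (e : (Σ j, Fin (d j)) ≃ Fin m)
    (x y : Fin m × (Fin m ⊕ Fin r) → R) (G : Matrix (Fin m) (Fin m) R)
    (h1 : Am y * G = G * Am x) (h2 : ∀ l, vm y l = G.mulVec (vm x l)) :
    kdet d e y = G.det * kdet d e x := by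
  have h3 : ∀ i : ℕ, Am y ^ i * G = G * Am x ^ i := by
    intro i
    induction i with
    | zero => rw [pow_zero, pow_zero, one_mul, mul_one]
    | succ i ih => rw [pow_succ', mul_assoc, ih, ← mul_assoc, h1, mul_assoc, ← pow_succ']
  have h4 : kmat d y = kmat d x * G.transpose := by
    ext p a
    rw [kmat_row, h2, Matrix.mulVec_mulVec, h3, ← Matrix.mulVec_mulVec]
    change _ = ∑ b, kmat d x p b * G.transpose b a
    rw [kmat_row]
    change ∑ b, G a b * _ = _
    refine Finset.sum_congr rfl fun b _ => ?_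
    rw [Matrix.transpose_apply, mul_comm]
  unfold kdet
  have h5 : (kmat d y).submatrix e.symm id = (kmat d x).submatrix e.symm id * G.transpose := by
    rw [h4]
    ext a b
    rfl
  rw [h5, Matrix.det_mul, Matrix.det_transpose, mul_comm]

/-- scaling of one vector -/
theorem kdet_scale (d : Fin r → ℕ) (e : (Σ j, Fin (d j)) ≃ Fin m)
    (x y : Fin m × (Fin m ⊕ Fin r) → R) (j : Fin r) (c : R) (h1 : Am y = Am x)
    (h2 : vm y j = c • vm x j) (h3 : ∀ l, l ≠ j → vm y l = vm x l) :
    kdet d e y = c ^ d j * kdet d e x := by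
  have h4 : (kmat d y).submatrix e.symm id = Matrix.of fun a b =>
      (fun a => if (e.symm a).1 = j then c else 1) a * (kmat d x).submatrix e.symm id a b := by
    ext a b
    simp only [Matrix.submatrix_apply, id_eq, Matrix.of_apply]
    rw [kmat_row, kmat_row, h1]
    by_cases h : (e.symm a).1 = j
    · have h5 : vm y (e.symm a).1 = c • vm x (e.symm a).1 := by rw [h]; exact h2
      rw [if_pos h, h5, Matrix.mulVec_smul]
      rfl
    · rw [if_neg h, h3 _ h, one_mul]
  unfold kdet
  rw [h4, Matrix.det_mul_column]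
  congr 1
  rw [← Equiv.prod_comp e fun a => if (e.symm a).1 = j then c else 1]
  simp only [Equiv.symm_apply_apply]
  rw [Fintype.prod_sigma]
  rw [Finset.prod_eq_single j]
  · simp
  · intro b _ hb
    exact Finset.prod_eq_one fun i _ => if_neg hb
  · intro h
    exact absurd (Finset.mem_univ j) h

end

end Pool.Agent.K1H70.KR
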