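import Mathlib

/-! # Krylov determinants: interface (Mathlib only)

Owner helper70.  `f(A; v_1, …, v_r) = det (A ^ i v_j)_{j ≤ r, i < d_j}`, `∑ d_j = m`, `A` a generic matrix of
size `m`.  Goal: the strong monodromy conjecture for `f` and every prime (explicit zeta function), and
`∏_k ∏_{j < c_k} (c_k s + m_k + j)` divides every `b` with a functional equation of `f`. -/

set_option autoImplicit false

namespace Pool.Agent.K1H70.KR

open MvPolynomial

/-! ## The Weyl algebra and the Fischer pairing -/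

section

variable {σ : Type}

/-- multiplication by a variable (`inl`), or a partial derivative (`inr`) -/
noncomputable def gen : σ ⊕ σ → Module.End ℂ (MvPolynomial σ ℂ)
  | Sum.inl u => LinearMap.mulLeft ℂ (X u : MvPolynomial σ ℂ)
  | Sum.inr u => ((pderiv u : Derivation ℂ (MvPolynomial σ ℂ) (MvPolynomial σ ℂ)) :
      MvPolynomial σ ℂ →ₗ[ℂ] MvPolynomial σ ℂ)

/-- the product of the letters -/
noncomputable def wd (w : List (σ ⊕ σ)) : Module.End ℂ (MvPolynomial σ ℂ) := (w.map gen).prod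

variable (σ) in
/-- the Weyl algebra: the span of the words -/
noncomputable def W : Submodule ℂ (Module.End ℂ (MvPolynomial σ ℂ)) :=
  Submodule.span ℂ (Set.range wd)

/-- the Fischer pairing: `⟨x ^ α, x ^ α⟩ = α!`, different monomials are orthogonal -/
noncomputable def fis : MvPolynomial σ ℂ →ₗ[ℂ] MvPolynomial σ ℂ →ₗ[ℂ] ℂ :=
  (basisMonomials σ ℂ).constr ℂ fun α =>
    (α.prod fun _ k => (k.factorial : ℂ)) • (lcoeff ℂ α : MvPolynomial σ ℂ →ₗ[ℂ] ℂ)

theorem fis_monomial (α : σ →₀ ℕ) (c : ℂ) (g : MvPolynomial σ ℂ) :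
    fis (monomial α c) g = c * (α.prod fun _ k => (k.factorial : ℂ)) * coeff α g := by
  have h1 : (monomial α c : MvPolynomial σ ℂ) = c • basisMonomials σ ℂ α := by
    rw [coe_basisMonomials, smul_monomial, smul_eq_mul, mul_one]
  rw [h1, map_smul, fis, Module.Basis.constr_basis]
  simp [mul_assoc]

/-- the linear vector field `∑ M u w x_u ∂_w` -/
noncomputable def lin [Fintype σ] (M : σ → σ → ℝ) : Module.End ℂ (MvPolynomial σ ℂ) :=
  ∑ u, ∑ w, ((M u w : ℝ) : ℂ) • (gen (Sum.inl u) * gen (Sum.inr w))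

/-- **P2 (Reynolds).** For a finite family of linear vector fields and constants, closed under
transposition, each operator is the sum of one of weight `κ` and of commutators. -/
def S_REYN : Prop := ∀ (σ ι : Type) [Fintype σ] [DecidableEq σ] [Fintype ι] (M : ι → σ → σ → ℝ)
  (κ : ι → ℝ) (st : ι → ι), (∀ i u w, M (st i) u w = M i w u) → (∀ i, κ (st i) = κ i) →
  ∀ P ∈ W σ, ∃ (P0 : Module.End ℂ (MvPolynomial σ ℂ)) (R : ι → Module.End ℂ (MvPolynomial σ ℂ)),
    P0 ∈ W σ ∧ (∀ i, R i ∈ W σ) ∧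
    P = P0 + ∑ i, (lin (M i) * R i - R i * lin (M i) - ((κ i : ℝ) : ℂ) • R i) ∧
    ∀ i, lin (M i) * P0 - P0 * lin (M i) = ((κ i : ℝ) : ℂ) • P0

/-! ## Slices -/

variable {m : ℕ}

open Classical in
/-- put `v = (1, 0, …, 0)` -/
noncomputable def sl (v : Fin (m + 1) → σ) : MvPolynomial σ ℂ →ₐ[ℂ] MvPolynomial σ ℂ :=
  aeval fun u => if u = v 0 then 1 else if u ∈ Set.range v then 0 else X u

/-- the Euler operator in the variables `v` -/
noncomputable def Eu (v : Fin (m + 1) → σ) : Module.End ℂ (MvPolynomial σ ℂ) :=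
  ∑ a, gen (Sum.inl (v a)) * gen (Sum.inr (v a))

open Classical in
/-- `lin (M a) = v_0 ∂_{v_(a + 1)} +` (a vector field in the other variables) -/
def Adm (v : Fin (m + 1) → σ) (M : Fin m → σ → σ → ℝ) : Prop :=
  (∀ a u b, M a u (v b) = if u = v 0 ∧ b = a.succ then 1 else 0) ∧
    ∀ a b w, M a (v b) w = if b = 0 ∧ w = v a.succ then 1 else 0

end

/-- **P3 (restriction to the slice).** -/
def S_LEM : Prop := ∀ (σ : Type) [Fintype σ] (m : ℕ) (v : Fin (m + 1) → σ)
  (M : Fin m → σ → σ → ℝ), Function.Injective v → Adm v M → ∀ (N : ℕ) (g h : MvPolynomial σ ℂ),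
  Eu v g = (N : ℂ) • g → Eu v h = (N : ℂ) • h → (∀ a, lin (M a) g = 0) →
  (∀ a, lin (fun u w => M a w u) h = 0) →
  fis g h = (((N + m).factorial : ℂ) / m.factorial) * fis (sl v g) (sl v h)

/-- **P4 (operators on the slice).** -/
def S_SLC : Prop := ∀ (σ : Type) [Fintype σ] (m : ℕ) (v : Fin (m + 1) → σ)
  (M : Fin m → σ → σ → ℝ), Function.Injective v → Adm v M → ∀ (c : ℕ) (f : MvPolynomial σ ℂ),
  Eu v f = (c : ℂ) • f → (∀ a, lin (M a) f = 0) → ∀ P ∈ W σ,
  ∃ (K : ℕ) (Q : ℕ → Module.End ℂ (MvPolynomial σ ℂ)), (∀ i, Q i ∈ W σ) ∧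
    ∀ n : ℕ, sl v (P (f ^ n)) = ∑ i ∈ Finset.range K, ((n : ℂ) ^ i) • Q i ((sl v f) ^ n)

/-- **P5 (fewer variables).** -/
def S_RED : Prop := ∀ (σ' σ : Type) (j : σ' → σ), Function.Injective j → ∀ Q ∈ W σ,
  ∃ Q' ∈ W σ', ∀ g h : MvPolynomial σ' ℂ, fis (rename j g) (Q (rename j h)) = fis g (Q' h)

/-! ## Krylov determinants -/

section

variable {R : Type} [CommRing R] {m r : ℕ}

/-- the rows `A ^ i v_j`, `i < d j`; `A a b = x (a, inl b)`, `v_j a = x (a, inr j)` -/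
def kmat (d : Fin r → ℕ) (x : Fin m × (Fin m ⊕ Fin r) → R) : Matrix (Σ j, Fin (d j)) (Fin m) R :=
  Matrix.of fun p => ((Matrix.of fun a b : Fin m => x (a, Sum.inl b)) ^ (p.2 : ℕ)).mulVec
    fun a => x (a, Sum.inr p.1)

/-- the determinant of the rows `A ^ i v_j`, `i < d j`, in the order `e` -/
def kdet (d : Fin r → ℕ) (e : (Σ j, Fin (d j)) ≃ Fin m) (x : Fin m × (Fin m ⊕ Fin r) → R) : R :=
  ((kmat d x).submatrix e.symm id).det

/-- the data of the quotient by `v_j = e_0`: the first row and column are deleted, and `v_j` is replaced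
by the rest of the first column of `A` -/
def nx (j : Fin r) (x : Fin (m + 1) × (Fin (m + 1) ⊕ Fin r) → R) : Fin m × (Fin m ⊕ Fin r) → R
  | (a, Sum.inl b) => x (a.succ, Sum.inl b.succ)
  | (a, Sum.inr l) => if l = j then x (a.succ, Sum.inl 0) else x (a.succ, Sum.inr l)

end

/-- **P6 (the step).** If `v_j = e_0` and `d j` is maximal, then the determinant is, up to a sign, the one
of the quotient, with `d j - 1` in the place of `d j`. -/
def S_DET : Prop := ∀ (m r : ℕ) (d : Fin r → ℕ) (e : (Σ j, Fin (d j)) ≃ Fin (m + 1)) (j : Fin r),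
  0 < d j → (∀ l, d l ≤ d j) → ∀ e' : (Σ l, Fin (Function.update d j (d j - 1) l)) ≃ Fin m,
  ∃ ε : ℤ, (ε = 1 ∨ ε = -1) ∧ ∀ (R : Type) [CommRing R] (x : Fin (m + 1) × (Fin (m + 1) ⊕ Fin r) → R),
    (∀ a, x (a, Sum.inr j) = if a = 0 then 1 else 0) →
    kdet d e x = (ε : R) * kdet (Function.update d j (d j - 1)) e' (nx j x)

/-- the Krylov determinant as a polynomial -/
noncomputable def kry {m r : ℕ} (d : Fin r → ℕ) (e : (Σ j, Fin (d j)) ≃ Fin m) :
    MvPolynomial (Fin m × (Fin m ⊕ Fin r)) ℤ := kdet d e X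

/-- the vector field of the elementary matrix `E_{pq}`: `δ v_l = E_{pq} v_l`, `δ A = [E_{pq}, A]` -/
def Mpq {m r : ℕ} (p q : Fin m) (u w : Fin m × (Fin m ⊕ Fin r)) : ℝ :=
  (if u.1 = q ∧ w.1 = p ∧ u.2 = w.2 then 1 else 0) -
    if u.1 = w.1 ∧ u.2 = Sum.inl p ∧ w.2 = Sum.inl q then 1 else 0

/-- **P7 (invariance and degree).** -/
def S_INV : Prop := ∀ (m r : ℕ) (d : Fin r → ℕ) (e : (Σ j, Fin (d j)) ≃ Fin m),
  (∀ p q : Fin m, p ≠ q → lin (Mpq p q) (map (Int.castRingHom ℂ) (kry d e)) = 0) ∧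
  ∀ j : Fin r, (∑ a : Fin m, gen (Sum.inl (a, Sum.inr j)) * gen (Sum.inr (a, Sum.inr j)) :
    Module.End ℂ (MvPolynomial (Fin m × (Fin m ⊕ Fin r)) ℂ)) (map (Int.castRingHom ℂ) (kry d e)) =
      (d j : ℂ) • map (Int.castRingHom ℂ) (kry d e)

end Pool.Agent.K1H70.KR
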