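import Pool.Agent.TH192.PA.Final
import Pool.Agent.K1H70.KR.Stm

set_option autoImplicit false
set_option linter.unusedSectionVars false
set_option linter.unusedVariables false

/-! # Krylov determinants: the zeta function -/

namespace Pool.Agent.K1H70.KR

open MeasureTheory Pool.Agent.W427.SMC Pool.Agent.TH192.PA
open scoped ENNReal NNReal

attribute [local instance] msZ bsZ

variable (p : ℕ) [Fact p.Prime]

section norm

variable {ι : Type} [Fintype ι]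

/-- the maximum norm -/
noncomputable def nrm (z : ι → ℤ_[p]) : ℝ≥0 := Finset.univ.sup fun i => ‖z i‖₊

theorem nrm_cont : Continuous (nrm p : (ι → ℤ_[p]) → ℝ≥0) := by
  unfold nrm
  exact Continuous.finset_sup_apply fun i _ => (continuous_apply i).nnnorm

theorem nrm_le_one (z : ι → ℤ_[p]) : nrm p z ≤ 1 :=
  Finset.sup_le fun i _ => by
    have h := PadicInt.norm_le_one (z i)
    exact_mod_cast h

theorem nrm_smul (z : ι → ℤ_[p]) : nrm p (fun i => (p : ℤ_[p]) * z i) = ‖(p : ℤ_[p])‖₊ * nrm p z := by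
  unfold nrm
  rw [NNReal.mul_finset_sup]
  refine Finset.sup_congr rfl fun i _ => ?_
  exact nnnorm_mul _ _

theorem nrm_unit (w : ι → ZMod p) (hw : w ≠ 0) (z : ι → ℤ_[p]) :
    nrm p (fun i => ((w i).val : ℤ_[p]) + (p : ℤ_[p]) * z i) = 1 := by
  haveI : NeZero p := ⟨(Fact.out : p.Prime).ne_zero⟩
  obtain ⟨i, hi⟩ := Function.ne_iff.1 hw
  refine le_antisymm (nrm_le_one p _) ?_
  have h1 : ‖((w i).val : ℤ_[p]) + (p : ℤ_[p]) * z i‖ = 1 := by
    by_contra h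
    have h2 : ‖((w i).val : ℤ_[p]) + (p : ℤ_[p]) * z i‖ < 1 :=
      lt_of_le_of_ne (PadicInt.norm_le_one _) h
    rw [PadicInt.norm_lt_one_iff_dvd] at h2
    have h3 : (p : ℤ_[p]) ∣ ((w i).val : ℤ_[p]) := by
      have := dvd_sub h2 (dvd_mul_right (p : ℤ_[p]) (z i))
      rwa [add_sub_cancel_right] at this
    have h4 : ‖((w i).val : ℤ_[p])‖ < 1 := by rwa [PadicInt.norm_lt_one_iff_dvd]
    have h5 : (PadicInt.toZMod ((w i).val : ℤ_[p]) : ZMod p) = 0 := by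
      obtain ⟨c, hc⟩ := h3
      rw [hc, map_mul, map_natCast, ZMod.natCast_self, zero_mul]
    rw [map_natCast, ZMod.natCast_zmod_val] at h5
    exact hi h5
  have h2 : (1 : ℝ≥0) = ‖((w i).val : ℤ_[p]) + (p : ℤ_[p]) * z i‖₊ := by
    apply NNReal.coe_injective
    rw [coe_nnnorm, h1, NNReal.coe_one]
  rw [h2]
  exact Finset.le_sup (f := fun i => ‖((w i).val : ℤ_[p]) + (p : ℤ_[p]) * z i‖₊) (Finset.mem_univ i)

/-- the integral of the norm -/
noncomputable def J (ι : Type) [Fintype ι] (t : ℝ) : ℝ≥0∞ :=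
  ∫⁻ z : ι → ℤ_[p], ((nrm p z : ℝ≥0) : ℝ≥0∞) ^ t ∂(hm p ι)

theorem nrm_meas (t : ℝ) : Measurable fun z : ι → ℤ_[p] => ((nrm p z : ℝ≥0) : ℝ≥0∞) ^ t :=
  (measurable_coe_nnreal_ennreal.comp (nrm_cont p).measurable).pow_const _

theorem J_le (t : ℝ) (ht : 0 ≤ t) : J p ι t ≤ 1 := by
  unfold J
  refine (lintegral_mono (g := fun _ => (1 : ℝ≥0∞)) fun z => ?_).trans ?_
  · exact ENNReal.rpow_le_one (by exact_mod_cast nrm_le_one p z) ht
  · rw [lintegral_const, measure_univ, mul_one]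

/-- **the integral of the norm** -/
theorem J_eq [DecidableEq ι] (t : ℝ) (ht : 0 ≤ t) :
    (J p ι t).toReal * (1 - (p : ℝ)⁻¹ ^ Fintype.card ι * (p : ℝ) ^ (-t)) =
      1 - (p : ℝ)⁻¹ ^ Fintype.card ι := by
  haveI : NeZero p := ⟨(Fact.out : p.Prime).ne_zero⟩
  have hp0 : (0 : ℝ) < p := by exact_mod_cast (Fact.out : p.Prime).pos
  have hJ := J_le p (ι := ι) t ht
  have hJt : J p ι t ≠ ⊤ := ne_top_of_le_ne_top ENNReal.one_ne_top hJ
  have hpe : (p : ℝ≥0∞) ≠ 0 := by exact_mod_cast (Fact.out : p.Prime).ne_zero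
  have hc : ((p : ℝ≥0∞)⁻¹) ^ Fintype.card ι ≠ ⊤ := ENNReal.pow_ne_top (ENNReal.inv_ne_top.2 hpe)
  have h0 : ∫⁻ z : ι → ℤ_[p], ((nrm p (fun i => ((((0 : ι → ZMod p) i).val : ℕ) : ℤ_[p]) +
      (p : ℤ_[p]) * z i) : ℝ≥0) : ℝ≥0∞) ^ t ∂(hm p ι) = ENNReal.ofReal ((p : ℝ) ^ (-t)) * J p ι t := by
    unfold J
    rw [← lintegral_const_mul _ (nrm_meas p t)]
    refine lintegral_congr fun z => ?_
    have e1 : (fun i => ((((0 : ι → ZMod p) i).val : ℕ) : ℤ_[p]) + (p : ℤ_[p]) * z i) =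
        fun i => (p : ℤ_[p]) * z i := by
      funext i
      simp
    rw [e1, nrm_smul, ENNReal.coe_mul, ENNReal.mul_rpow_of_nonneg _ _ ht]
    congr 1
    have e2 : ((‖(p : ℤ_[p])‖₊ : ℝ≥0) : ℝ≥0∞) = ENNReal.ofReal ((p : ℝ)⁻¹) := by
      rw [ENNReal.ofReal]
      congr 1
      apply NNReal.coe_injective
      rw [coe_nnnorm, PadicInt.norm_p, Real.coe_toNNReal _ (by positivity)]
    rw [e2, ENNReal.ofReal_rpow_of_nonneg (by positivity) ht, Real.inv_rpow hp0.le,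
      Real.rpow_neg hp0.le]
  have h1 : ∀ w : ι → ZMod p, w ≠ 0 → ∫⁻ z : ι → ℤ_[p], ((nrm p (fun i => ((w i).val : ℤ_[p]) +
      (p : ℤ_[p]) * z i) : ℝ≥0) : ℝ≥0∞) ^ t ∂(hm p ι) = 1 := by
    intro w hw
    rw [lintegral_congr fun z => by rw [nrm_unit p w hw z, ENNReal.coe_one, ENNReal.one_rpow],
      lintegral_const, measure_univ, mul_one]
  have h2 : J p ι t = smV p (fun z : ι → ℤ_[p] => ((nrm p z : ℝ≥0) : ℝ≥0∞) ^ t) :=
    lintegral_smV p _ (nrm_meas p t)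
  have h3 : J p ι t = ((p : ℝ≥0∞)⁻¹) ^ Fintype.card ι * (ENNReal.ofReal ((p : ℝ) ^ (-t)) * J p ι t) +
      ((p ^ Fintype.card ι - 1 : ℕ) : ℝ≥0∞) * ((p : ℝ≥0∞)⁻¹) ^ Fintype.card ι := by
    conv_lhs => rw [h2]
    unfold smV
    rw [← Finset.add_sum_erase _ _ (Finset.mem_univ (0 : ι → ZMod p)), h0]
    congr 1
    rw [Finset.sum_congr rfl (g := fun _ => ((p : ℝ≥0∞)⁻¹) ^ Fintype.card ι) fun w hw => by
      rw [h1 w (Finset.ne_of_mem_erase hw), mul_one], Finset.sum_const, Finset.card_erase_of_mem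
        (Finset.mem_univ _), nsmul_eq_mul, Finset.card_univ, Fintype.card_pi]
    simp only [ZMod.card, Finset.prod_const, Finset.card_univ]
  have h4 := congrArg ENNReal.toReal h3
  have h5 : (1 : ℕ) ≤ p ^ Fintype.card ι := Nat.one_le_pow _ _ (Fact.out : p.Prime).pos
  rw [ENNReal.toReal_add (ENNReal.mul_ne_top hc (ENNReal.mul_ne_top ENNReal.ofReal_ne_top hJt))
    (ENNReal.mul_ne_top (ENNReal.natCast_ne_top _) hc), ENNReal.toReal_mul, ENNReal.toReal_mul,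
    ENNReal.toReal_mul, ENNReal.toReal_pow, ENNReal.toReal_inv, ENNReal.toReal_natCast,
    ENNReal.toReal_natCast, ENNReal.toReal_ofReal (Real.rpow_nonneg hp0.le _),
    Nat.cast_sub h5, Nat.cast_pow, Nat.cast_one] at h4
  have h6 : ((p : ℝ) ^ Fintype.card ι - 1) * (p : ℝ)⁻¹ ^ Fintype.card ι =
      1 - (p : ℝ)⁻¹ ^ Fintype.card ι := by
    rw [sub_mul, one_mul, ← mul_pow, mul_inv_cancel₀ hp0.ne', one_pow]
  rw [h6] at h4
  linear_combination h4

end norm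

end Pool.Agent.K1H70.KR
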