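import Pool.Agent.K1H70.KR.Pad
import Pool.Agent.K1H70.KR.Alg

set_option autoImplicit false
set_option linter.unusedSectionVars false
set_option linter.unusedVariables false

/-! # Krylov determinants: the step of the integral -/

namespace Pool.Agent.K1H70.KR

open MeasureTheory Pool.Agent.W427.SMC Pool.Agent.TH192.PA Matrix
open scoped ENNReal NNReal

attribute [local instance] msZ bsZ

variable (p : ℕ) [Fact p.Prime]

theorem kdet_aeval {m r : ℕ} (d : Fin r → ℕ) (e : (Σ j, Fin (d j)) ≃ Fin m)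
    (x : Fin m × (Fin m ⊕ Fin r) → ℤ_[p]) : MvPolynomial.aeval x (kry d e) = kdet d e x := by
  have h := kdet_hom (MvPolynomial.aeval x : MvPolynomial (Fin m × (Fin m ⊕ Fin r)) ℤ →ₐ[ℤ] ℤ_[p]).toRingHom
    d e MvPolynomial.X
  rw [kry]
  refine h.symm.trans ?_
  congr 1
  funext u
  exact MvPolynomial.aeval_X x u

theorem kdet_cont {m r : ℕ} (d : Fin r → ℕ) (e : (Σ j, Fin (d j)) ≃ Fin m) :
    Continuous fun x : Fin m × (Fin m ⊕ Fin r) → ℤ_[p] => kdet d e x := by
  have : (fun x : Fin m × (Fin m ⊕ Fin r) → ℤ_[p] => kdet d e x) =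
      fun z => MvPolynomial.eval z (MvPolynomial.map (Int.castRingHom ℤ_[p]) (kry d e)) := by
    funext z
    rw [MvPolynomial.eval_map, ← kdet_aeval, MvPolynomial.aeval_def]
    rfl
  rw [this]
  exact MvPolynomial.continuous_eval _

/-- the integral -/
noncomputable def II {m r : ℕ} (d : Fin r → ℕ) (e : (Σ j, Fin (d j)) ≃ Fin m) (s : ℝ) : ℝ≥0∞ :=
  ∫⁻ x : Fin m × (Fin m ⊕ Fin r) → ℤ_[p], tau p s (kdet d e x) ∂(hm p (Fin m × (Fin m ⊕ Fin r)))

section

variable {m r : ℕ} (j : Fin r)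

/-- the other variables -/
abbrev YI (m r : ℕ) (j : Fin r) : Type := {u : Fin m × (Fin m ⊕ Fin r) // u.2 ≠ Sum.inr j}

/-- the data with `v_j = v` -/
def jn {R : Type} (v : Fin m → R) (y : YI m r j → R) : Fin m × (Fin m ⊕ Fin r) → R :=
  fun u => if h : u.2 = Sum.inr j then v u.1 else y ⟨u, h⟩

theorem jn_j {R : Type} (v : Fin m → R) (y : YI m r j → R) (a : Fin m) :
    jn j v y (a, Sum.inr j) = v a := by
  unfold jn
  rw [dif_pos rfl]

theorem jn_l {R : Type} (v : Fin m → R) (y : YI m r j → R) (a : Fin m) (b : Fin m) :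
    jn j v y (a, Sum.inl b) = y ⟨(a, Sum.inl b), by simp⟩ := by
  unfold jn
  rw [dif_neg]

theorem jn_r {R : Type} (v : Fin m → R) (y : YI m r j → R) (a : Fin m) (l : Fin r) (hl : l ≠ j) :
    jn j v y (a, Sum.inr l) = y ⟨(a, Sum.inr l), by simpa using hl⟩ := by
  unfold jn
  rw [dif_neg]

/-- the two kinds of variables -/
def eqS : YI m r j ⊕ Fin m ≃ Fin m × (Fin m ⊕ Fin r) where
  toFun := Sum.elim (fun u => u.1) fun a => (a, Sum.inr j)
  invFun u := if h : u.2 = Sum.inr j then Sum.inr u.1 else Sum.inl ⟨u, h⟩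
  left_inv := by
    rintro (⟨u, hu⟩ | a)
    · exact dif_neg hu
    · exact dif_pos rfl
  right_inv := by
    intro u
    by_cases h : u.2 = Sum.inr j
    · have h1 : (if h : u.2 = Sum.inr j then Sum.inr u.1 else Sum.inl ⟨u, h⟩ : YI m r j ⊕ Fin m) =
        Sum.inr u.1 := dif_pos h
      refine (congrArg (Sum.elim (fun u : YI m r j => u.1) fun a => (a, Sum.inr j)) h1).trans ?_
      exact Prod.ext rfl h.symm
    · have h1 : (if h : u.2 = Sum.inr j then Sum.inr u.1 else Sum.inl ⟨u, h⟩ : YI m r j ⊕ Fin m) =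
        Sum.inl ⟨u, h⟩ := dif_neg h
      exact congrArg (Sum.elim (fun u : YI m r j => u.1) fun a => (a, Sum.inr j)) h1

theorem jn_eq {R : Type} (v : Fin m → R) (y : YI m r j → R) :
    jn j v y = fun u => Sum.elim y v ((eqS j).symm u) := by
  funext u
  unfold jn eqS
  simp only [Equiv.coe_fn_symm_mk]
  by_cases h : u.2 = Sum.inr j
  · rw [dif_pos h, dif_pos h]
    rfl
  · rw [dif_neg h, dif_neg h]
    rfl

theorem split (g : (Fin m × (Fin m ⊕ Fin r) → ℤ_[p]) → ℝ≥0∞) (hg : Measurable g) :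
    ∫⁻ x, g x ∂(hm p (Fin m × (Fin m ⊕ Fin r))) =
      ∫⁻ v : Fin m → ℤ_[p], ∫⁻ y : YI m r j → ℤ_[p], g (jn j v y) ∂(hm p (YI m r j)) ∂(hm p (Fin m)) := by
  have hm1 : Measurable fun (z : YI m r j ⊕ Fin m → ℤ_[p]) u => z ((eqS j).symm u) := by
    refine Continuous.measurable ?_
    fun_prop
  have h1 := lintegral_equivariant p (fun (z : YI m r j ⊕ Fin m → ℤ_[p]) u => z ((eqS j).symm u))
    (fun x u => x (eqS j u)) hm1 (fun z y => by
      funext u
      simp) g hg
  rw [← h1]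
  refine (lintegral_sum p _ (hg.comp hm1)).trans ?_
  refine lintegral_congr fun v => lintegral_congr fun y => ?_
  rw [jn_eq]
  rfl

/-- the action of an invertible matrix -/
noncomputable def act (Gi G : Matrix (Fin m) (Fin m) ℤ_[p]) (y : YI m r j → ℤ_[p]) : YI m r j → ℤ_[p] :=
  fun u => match u with
    | ⟨(a, Sum.inl b), _⟩ => (Gi * Am (jn j 0 y) * G) a b
    | ⟨(a, Sum.inr l), _⟩ => Gi.mulVec (vm (jn j 0 y) l) a

theorem Am_jn {R : Type} [CommRing R] (v v' : Fin m → R) (y : YI m r j → R) :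
    Am (jn j v y) = Am (jn j v' y) := by
  ext a b
  change jn j v y (a, Sum.inl b) = jn j v' y (a, Sum.inl b)
  rw [jn_l, jn_l]

theorem vm_jn {R : Type} [CommRing R] (v v' : Fin m → R) (y : YI m r j → R) (l : Fin r) (hl : l ≠ j) :
    vm (jn j v y) l = vm (jn j v' y) l := by
  funext a
  change jn j v y (a, Sum.inr l) = jn j v' y (a, Sum.inr l)
  rw [jn_r _ _ _ _ _ hl, jn_r _ _ _ _ _ hl]

theorem vm_jn_j {R : Type} [CommRing R] (v : Fin m → R) (y : YI m r j → R) :
    vm (jn j v y) j = v := by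
  funext a
  exact jn_j j v y a

theorem Am_act (Gi G : Matrix (Fin m) (Fin m) ℤ_[p]) (y : YI m r j → ℤ_[p]) (v : Fin m → ℤ_[p]) :
    Am (jn j v (act p j Gi G y)) = Gi * Am (jn j 0 y) * G := by
  ext a b
  change jn j v (act p j Gi G y) (a, Sum.inl b) = _
  rw [jn_l]
  rfl

theorem vm_act (Gi G : Matrix (Fin m) (Fin m) ℤ_[p]) (y : YI m r j → ℤ_[p]) (v : Fin m → ℤ_[p])
    (l : Fin r) (hl : l ≠ j) :
    vm (jn j v (act p j Gi G y)) l = Gi.mulVec (vm (jn j 0 y) l) := by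
  funext a
  change jn j v (act p j Gi G y) (a, Sum.inr l) = _
  rw [jn_r _ _ _ _ _ hl]
  rfl

theorem jn_inj {y y' : YI m r j → ℤ_[p]} (h1 : Am (jn j 0 y) = Am (jn j 0 y'))
    (h2 : ∀ l, l ≠ j → vm (jn j 0 y) l = vm (jn j 0 y') l) : y = y' := by
  funext u
  obtain ⟨⟨a, b | l⟩, hu⟩ := u
  · have h3 := congrFun (congrFun h1 a) b
    change jn j 0 y (a, Sum.inl b) = jn j 0 y' (a, Sum.inl b) at h3
    rwa [jn_l, jn_l] at h3
  · have hl : l ≠ j := by simpa using hu
    have h3 := congrFun (h2 l hl) a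
    change jn j 0 y (a, Sum.inr l) = jn j 0 y' (a, Sum.inr l) at h3
    rwa [jn_r _ _ _ _ _ hl, jn_r _ _ _ _ _ hl] at h3

theorem Am_add (y y' : YI m r j → ℤ_[p]) :
    Am (jn j 0 (y + y')) = Am (jn j 0 y) + Am (jn j 0 y') := by
  ext a b
  change jn j 0 (y + y') (a, Sum.inl b) = jn j 0 y (a, Sum.inl b) + jn j 0 y' (a, Sum.inl b)
  rw [jn_l, jn_l, jn_l]
  rfl

theorem vm_add (y y' : YI m r j → ℤ_[p]) (l : Fin r) :
    vm (jn j 0 (y + y')) l = vm (jn j 0 y) l + vm (jn j 0 y') l := by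
  funext a
  change jn j 0 (y + y') (a, Sum.inr l) = jn j 0 y (a, Sum.inr l) + jn j 0 y' (a, Sum.inr l)
  by_cases hl : l = j
  · subst hl
    rw [jn_j, jn_j, jn_j]
    simp
  · rw [jn_r _ _ _ _ _ hl, jn_r _ _ _ _ _ hl, jn_r _ _ _ _ _ hl]
    rfl

theorem act_eqv (Gi G : Matrix (Fin m) (Fin m) ℤ_[p]) (h : Gi * G = 1) (y z : YI m r j → ℤ_[p]) :
    act p j Gi G (act p j G Gi y + z) = y + act p j Gi G z := by
  have h' : G * Gi = 1 := mul_eq_one_comm.1 h
  refine jn_inj p j ?_ fun l hl => ?_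
  · rw [Am_act, Am_add, Am_add, Am_act, Am_act, mul_add, add_mul]
    congr 1
    calc Gi * (G * Am (jn j 0 y) * Gi) * G = (Gi * G) * Am (jn j 0 y) * (Gi * G) := by
          simp only [Matrix.mul_assoc]
      _ = _ := by rw [h, one_mul, mul_one]
  · rw [vm_act _ _ _ _ _ _ _ hl, vm_add, vm_add, vm_act _ _ _ _ _ _ _ hl,
      vm_act _ _ _ _ _ _ _ hl, Matrix.mulVec_add, Matrix.mulVec_mulVec, h, Matrix.one_mulVec]

theorem act_meas (Gi G : Matrix (Fin m) (Fin m) ℤ_[p]) :
    Measurable (act p j Gi G : (YI m r j → ℤ_[p]) → YI m r j → ℤ_[p]) := by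
  refine Continuous.measurable ?_
  refine continuous_pi fun u => ?_
  obtain ⟨⟨a, b | l⟩, hu⟩ := u
  · change Continuous fun y : YI m r j → ℤ_[p] => (Gi * Am (jn j 0 y) * G) a b
    have h1 : Continuous fun y : YI m r j → ℤ_[p] => Am (jn j 0 y) := by
      refine continuous_matrix fun a b => ?_
      change Continuous fun y : YI m r j → ℤ_[p] => jn j 0 y (a, Sum.inl b)
      simp only [jn_l]
      fun_prop
    exact ((continuous_const.matrix_mul h1).matrix_mul continuous_const).matrix_elem a b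
  · have hl : l ≠ j := by simpa using hu
    change Continuous fun y : YI m r j → ℤ_[p] => Gi.mulVec (vm (jn j 0 y) l) a
    have h1 : Continuous fun y : YI m r j → ℤ_[p] => vm (jn j 0 y) l := by
      refine continuous_pi fun a => ?_
      change Continuous fun y : YI m r j → ℤ_[p] => jn j 0 y (a, Sum.inr l)
      have h2 : (fun y : YI m r j → ℤ_[p] => jn j 0 y (a, Sum.inr l)) =
          fun y => y ⟨(a, Sum.inr l), by simpa using hl⟩ := by
        funext y
        exact jn_r _ _ _ _ _ hl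
      rw [h2]
      fun_prop
    exact (continuous_apply a).comp (Continuous.matrix_mulVec continuous_const h1)

end

end Pool.Agent.K1H70.KR
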