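import Pool.Agent.K1H70.KR.Pad2

set_option autoImplicit false
set_option linter.unusedSectionVars false
set_option linter.unusedVariables false

/-! # Krylov determinants: the step of the integral -/

namespace Pool.Agent.K1H70.KR

open MeasureTheory Pool.Agent.W427.SMC Pool.Agent.TH192.PA Matrix
open scoped ENNReal NNReal

attribute [local instance] msZ bsZ

variable (p : ℕ) [Fact p.Prime]

/-- each vector is a multiple of the first vector of a basis -/
theorem exists_basis (m : ℕ) (v : Fin (m + 1) → ℤ_[p]) :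
    ∃ (c0 : ℤ_[p]) (G Gi : Matrix (Fin (m + 1)) (Fin (m + 1)) ℤ_[p]), Gi * G = 1 ∧ IsUnit G.det ∧
      (∀ a, v a = c0 * G a 0) ∧ ‖c0‖₊ = nrm p v := by
  obtain ⟨i, -, hi⟩ := Finset.exists_max_image (Finset.univ : Finset (Fin (m + 1)))
    (fun k => ‖v k‖) ⟨0, Finset.mem_univ 0⟩
  have h1 : ∀ k, ∃ u, v k = v i * u := fun k => dvd_of_norm_le p _ _ (hi k (Finset.mem_univ k))
  choose u0 hu0 using h1
  set u : Fin (m + 1) → ℤ_[p] := Function.update u0 i 1 with hu
  have h2 : ∀ k, v k = v i * u k := by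
    intro k
    by_cases hk : k = i
    · subst hk
      rw [hu, Function.update_self, mul_one]
    · rw [hu, Function.update_of_ne hk]
      exact hu0 k
  set L : Matrix (Fin (m + 1)) (Fin (m + 1)) ℤ_[p] := Matrix.of fun a b =>
    if b = 0 then u (Equiv.swap 0 i a) else if a = b then 1 else 0 with hL
  have hLd : L.det = 1 := by
    rw [Matrix.det_of_isLowerTriangular]
    · refine Finset.prod_eq_one fun a _ => ?_
      rw [hL, Matrix.of_apply]
      by_cases ha : a = 0
      · subst ha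
        rw [if_pos rfl, Equiv.swap_apply_left, hu, Function.update_self]
      · rw [if_neg ha, if_pos rfl]
    · intro a b hab
      have hab' : a < b := hab
      rw [hL, Matrix.of_apply, if_neg (Fin.ne_of_gt (lt_of_le_of_lt (Fin.zero_le a) hab')),
        if_neg hab'.ne]
  have hG : IsUnit (L.submatrix (Equiv.swap 0 i) id).det := by
    rw [Matrix.det_permute, hLd, mul_one]
    exact (Equiv.Perm.sign (Equiv.swap 0 i)).isUnit.map (Int.castRingHom ℤ_[p])
  refine ⟨v i, L.submatrix (Equiv.swap 0 i) id, (L.submatrix (Equiv.swap 0 i) id)⁻¹,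
    Matrix.nonsing_inv_mul _ hG, hG, fun a => ?_, ?_⟩
  · rw [Matrix.submatrix_apply, hL, Matrix.of_apply, id, if_pos rfl, Equiv.swap_apply_self]
    exact h2 a
  · refine le_antisymm (Finset.le_sup (f := fun k => ‖v k‖₊) (Finset.mem_univ i)) ?_
    refine Finset.sup_le fun k _ => ?_
    exact_mod_cast hi k (Finset.mem_univ k)

variable {m r : ℕ}

/-- the first unit vector -/
def e0 (R : Type) [CommRing R] (m : ℕ) : Fin (m + 1) → R := fun a => if a = 0 then 1 else 0

theorem kdet_jn (d : Fin r → ℕ) (e : (Σ j, Fin (d j)) ≃ Fin (m + 1)) (j : Fin r)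
    (v : Fin (m + 1) → ℤ_[p]) (y : YI (m + 1) r j → ℤ_[p]) (c0 : ℤ_[p])
    (G Gi : Matrix (Fin (m + 1)) (Fin (m + 1)) ℤ_[p]) (h : Gi * G = 1) (hv : ∀ a, v a = c0 * G a 0) :
    kdet d e (jn j v y) = c0 ^ d j * (G.det * kdet d e (jn j (e0 ℤ_[p] m) (act p j Gi G y))) := by
  have h' : G * Gi = 1 := mul_eq_one_comm.1 h
  have hG : G.mulVec (e0 ℤ_[p] m) = fun a => G a 0 := by
    funext a
    change ∑ b, G a b * e0 ℤ_[p] m b = G a 0
    rw [Finset.sum_eq_single 0]
    · unfold e0
      rw [if_pos rfl, mul_one]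
    · intro b _ hb
      unfold e0
      rw [if_neg hb, mul_zero]
    · intro h
      exact absurd (Finset.mem_univ _) h
  have h1 : kdet d e (jn j v y) = c0 ^ d j * kdet d e (jn j (fun a => G a 0) y) := by
    refine kdet_scale d e _ _ j c0 (Am_jn j _ _ y) ?_ fun l hl => vm_jn j _ _ y l hl
    rw [vm_jn_j, vm_jn_j]
    funext a
    exact hv a
  have h2 : kdet d e (jn j (fun a => G a 0) y) =
      G.det * kdet d e (jn j (e0 ℤ_[p] m) (act p j Gi G y)) := by
    refine kdet_equiv d e _ _ G ?_ fun l => ?_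
    · rw [Am_act, Am_jn j _ 0 y]
      calc Am (jn j 0 y) * G = (G * Gi) * Am (jn j 0 y) * G := by rw [h', one_mul]
        _ = _ := by simp only [Matrix.mul_assoc]
    · by_cases hl : l = j
      · subst hl
        rw [vm_jn_j, vm_jn_j, hG]
      · rw [vm_act _ _ _ _ _ _ _ hl, vm_jn j _ 0 y l hl, Matrix.mulVec_mulVec, h', Matrix.one_mulVec]
  rw [h1, h2]

/-- the section of `nx` -/
noncomputable def sc (j : Fin r) (x : Fin m × (Fin m ⊕ Fin r) → ℤ_[p]) : YI (m + 1) r j → ℤ_[p] :=
  fun u => Fin.cases (motive := fun _ => ℤ_[p]) 0 (fun a => match u.1.2 with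
    | Sum.inl b => Fin.cases (motive := fun _ => ℤ_[p]) (x (a, Sum.inr j))
        (fun b => x (a, Sum.inl b)) b
    | Sum.inr l => x (a, Sum.inr l)) u.1.1

theorem nx_sc (j : Fin r) (x : Fin m × (Fin m ⊕ Fin r) → ℤ_[p]) (z : YI (m + 1) r j → ℤ_[p])
    (v : Fin (m + 1) → ℤ_[p]) :
    nx j (jn j v (sc p j x + z)) = x + nx j (jn j v z) := by
  funext u
  obtain ⟨a, b | l⟩ := u
  · change jn j v (sc p j x + z) (a.succ, Sum.inl b.succ) =
      x (a, Sum.inl b) + jn j v z (a.succ, Sum.inl b.succ)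
    rw [jn_l, jn_l]
    rfl
  · change (if l = j then jn j v (sc p j x + z) (a.succ, Sum.inl 0) else
      jn j v (sc p j x + z) (a.succ, Sum.inr l)) = x (a, Sum.inr l) +
        (if l = j then jn j v z (a.succ, Sum.inl 0) else jn j v z (a.succ, Sum.inr l))
    by_cases hl : l = j
    · subst hl
      rw [if_pos rfl, if_pos rfl, jn_l, jn_l]
      rfl
    · rw [if_neg hl, if_neg hl, jn_r _ _ _ _ _ hl, jn_r _ _ _ _ _ hl]
      rfl

theorem nx_meas (j : Fin r) (v : Fin (m + 1) → ℤ_[p]) :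
    Measurable fun z : YI (m + 1) r j → ℤ_[p] => nx j (jn j v z) := by
  refine Continuous.measurable ?_
  refine continuous_pi fun u => ?_
  have h : ∀ w : Fin (m + 1) × (Fin (m + 1) ⊕ Fin r),
      Continuous fun z : YI (m + 1) r j → ℤ_[p] => jn j v z w := by
    intro w
    unfold jn
    by_cases hw : w.2 = Sum.inr j
    · simp only [dif_pos hw]
      exact continuous_const
    · simp only [dif_neg hw]
      fun_prop
  obtain ⟨a, b | l⟩ := u
  · exact h (a.succ, Sum.inl b.succ)
  · change Continuous fun z : YI (m + 1) r j → ℤ_[p] =>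
      (if l = j then jn j v z (a.succ, Sum.inl 0) else jn j v z (a.succ, Sum.inr l))
    by_cases hl : l = j
    · simp only [if_pos hl]
      exact h _
    · simp only [if_neg hl]
      exact h _

/-- **The step of the integral.** -/
theorem step_int (hdet : S_DET) (d : Fin r → ℕ) (e : (Σ j, Fin (d j)) ≃ Fin (m + 1)) (j : Fin r)
    (hj : 0 < d j) (hmax : ∀ l, d l ≤ d j)
    (e' : (Σ l, Fin (Function.update d j (d j - 1) l)) ≃ Fin m) (s : ℝ) (hs : 0 < s) :
    II p d e s = J p (Fin (m + 1)) ((d j : ℝ) * s) * II p (Function.update d j (d j - 1)) e' s := by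
  obtain ⟨ε, hε, hstep⟩ := hdet m r d e j hj hmax e'
  have hmz : Measurable fun x : Fin (m + 1) × (Fin (m + 1) ⊕ Fin r) → ℤ_[p] =>
      tau p s (kdet d e x) := ((tau_cont p s hs.le).comp (kdet_cont p d e)).measurable
  have hmz' : Measurable fun x : Fin m × (Fin m ⊕ Fin r) → ℤ_[p] =>
      tau p s (kdet (Function.update d j (d j - 1)) e' x) :=
    ((tau_cont p s hs.le).comp (kdet_cont p _ e')).measurable
  unfold II
  rw [split p j _ hmz]
  have h0 : ∫⁻ y : YI (m + 1) r j → ℤ_[p], tau p s (kdet d e (jn j (e0 ℤ_[p] m) y))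
      ∂(hm p (YI (m + 1) r j)) = ∫⁻ x : Fin m × (Fin m ⊕ Fin r) → ℤ_[p],
        tau p s (kdet (Function.update d j (d j - 1)) e' x) ∂(hm p (Fin m × (Fin m ⊕ Fin r))) := by
    have h1 := lintegral_equivariant p (fun z : YI (m + 1) r j → ℤ_[p] => nx j (jn j (e0 ℤ_[p] m) z))
      (sc p j) (nx_meas p j _) (fun z y => nx_sc p j y z _) _ hmz'
    rw [← h1]
    refine lintegral_congr fun z => ?_
    have h2 := hstep ℤ_[p] (jn j (e0 ℤ_[p] m) z) (fun a => jn_j j _ _ a)
    rw [h2]
    have h3 : ‖((ε : ℤ) : ℤ_[p]) * kdet (Function.update d j (d j - 1)) e'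
        (nx j (jn j (e0 ℤ_[p] m) z))‖ = ‖kdet (Function.update d j (d j - 1)) e'
          (nx j (jn j (e0 ℤ_[p] m) z))‖ := by
      rcases hε with rfl | rfl
      · rw [Int.cast_one, one_mul]
      · rw [Int.cast_neg, Int.cast_one, neg_one_mul, norm_neg]
    unfold tau
    rw [h3]
  have h4 : ∀ v : Fin (m + 1) → ℤ_[p], ∫⁻ y : YI (m + 1) r j → ℤ_[p],
      tau p s (kdet d e (jn j v y)) ∂(hm p (YI (m + 1) r j)) =
      ((nrm p v : ℝ≥0) : ℝ≥0∞) ^ ((d j : ℝ) * s) *
        ∫⁻ x : Fin m × (Fin m ⊕ Fin r) → ℤ_[p],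
          tau p s (kdet (Function.update d j (d j - 1)) e' x) ∂(hm p (Fin m × (Fin m ⊕ Fin r))) := by
    intro v
    obtain ⟨c0, G, Gi, h5, h6, h7, h8⟩ := exists_basis p m v
    have hmy : Measurable fun y : YI (m + 1) r j → ℤ_[p] =>
        tau p s (kdet d e (jn j (e0 ℤ_[p] m) y)) := by
      refine hmz.comp ?_
      refine Continuous.measurable (continuous_pi fun w => ?_)
      unfold jn
      by_cases hw : w.2 = Sum.inr j
      · simp only [dif_pos hw]
        exact continuous_const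
      · simp only [dif_neg hw]
        fun_prop
    rw [← h0, ← lintegral_equivariant p (act p j Gi G) (act p j G Gi) (act_meas p j Gi G)
      (fun z y => act_eqv p j Gi G h5 y z) _ hmy]
    refine Eq.trans ?_ (lintegral_const_mul _ (hmy.comp (act_meas p j Gi G)))
    refine lintegral_congr fun y => ?_
    change _ = _ * tau p s (kdet d e (jn j (e0 ℤ_[p] m) (act p j Gi G y)))
    rw [kdet_jn p d e j v y c0 G Gi h5 h7]
    have h9 : ‖G.det‖ = 1 := PadicInt.isUnit_iff.1 h6
    rw [tau_eq p s hs.le, tau_eq p s hs.le, nnnorm_mul, nnnorm_mul, nnnorm_pow,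
      show ‖G.det‖₊ = 1 from NNReal.coe_injective (by rw [coe_nnnorm, h9, NNReal.coe_one]),
      one_mul, ENNReal.coe_mul, ENNReal.mul_rpow_of_nonneg _ _ hs.le, h8, ENNReal.coe_pow,
      ← ENNReal.rpow_natCast, ← ENNReal.rpow_mul]
  rw [lintegral_congr h4, lintegral_mul_const _ (nrm_meas p _)]
  rfl

end Pool.Agent.K1H70.KR
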