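import Pool.Agent.K1H70.KR.Stm

set_option autoImplicit false

/-! # Krylov determinants: the profile -/

namespace Pool.Agent.K1H70.KR

/-- `c` lists the numbers `1, …, d j` (all `j`) in decreasing order -/
def Prof {m r : ℕ} (d : Fin r → ℕ) (c : Fin m → ℕ) : Prop :=
  Antitone c ∧ Finset.univ.val.map c = ∑ j, (Multiset.range (d j)).map Nat.succ

theorem Prof.pos {m r : ℕ} {d : Fin r → ℕ} {c : Fin m → ℕ} (h : Prof d c) (k : Fin m) : 0 < c k := by
  have h1 : c k ∈ Finset.univ.val.map c := Multiset.mem_map_of_mem _ (Finset.mem_univ k)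
  rw [h.2, Multiset.mem_sum] at h1
  obtain ⟨j, -, h2⟩ := h1
  rw [Multiset.mem_map] at h2
  obtain ⟨i, -, h3⟩ := h2
  rw [← h3]
  exact Nat.succ_pos i

theorem Prof.step {m r : ℕ} {d : Fin r → ℕ} {c : Fin (m + 1) → ℕ} (h : Prof d c)
    (e : (Σ j, Fin (d j)) ≃ Fin (m + 1)) :
    ∃ j : Fin r, d j = c 0 ∧ 0 < d j ∧ (∀ l, d l ≤ d j) ∧
      Nonempty ((Σ l, Fin (Function.update d j (d j - 1) l)) ≃ Fin m) ∧
      Prof (Function.update d j (d j - 1)) fun k => c k.succ := by
  classical
  have h1 : c 0 ∈ Finset.univ.val.map c := Multiset.mem_map_of_mem _ (Finset.mem_univ (0 : Fin (m + 1)))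
  rw [h.2, Multiset.mem_sum] at h1
  obtain ⟨j, -, h2⟩ := h1
  rw [Multiset.mem_map] at h2
  obtain ⟨i, h3, h4⟩ := h2
  rw [Multiset.mem_range] at h3
  have h5 : ∀ l, d l ≤ c 0 := by
    intro l
    rcases Nat.eq_zero_or_pos (d l) with h6 | h6
    · rw [h6]
      exact Nat.zero_le _
    · have h7 : d l ∈ ∑ j, (Multiset.range (d j)).map Nat.succ := by
        rw [Multiset.mem_sum]
        refine ⟨l, Finset.mem_univ l, ?_⟩
        rw [Multiset.mem_map]
        exact ⟨d l - 1, by rw [Multiset.mem_range]; omega, by omega⟩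
      rw [← h.2, Multiset.mem_map] at h7
      obtain ⟨k, -, h8⟩ := h7
      rw [← h8]
      exact h.1 (Fin.zero_le k)
  have h6 : d j = c 0 := by
    have := h5 j
    omega
  have h7 : ∀ (F : ℕ → Multiset ℕ) (x : Multiset ℕ), F (d j) = x + F (d j - 1) →
      ∑ l, F (d l) = x + ∑ l, F (Function.update d j (d j - 1) l) := by
    intro F x hF
    rw [← Finset.add_sum_erase _ _ (Finset.mem_univ j),
      ← Finset.add_sum_erase Finset.univ (fun l => F (Function.update d j (d j - 1) l))
        (Finset.mem_univ j), Function.update_self, hF, add_assoc]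
    congr 2
    refine Finset.sum_congr rfl fun l hl => ?_
    rw [Function.update_of_ne (Finset.ne_of_mem_erase hl)]
  have h8 : ∑ l, d l = 1 + ∑ l, Function.update d j (d j - 1) l := by
    rw [← Finset.add_sum_erase _ _ (Finset.mem_univ j),
      ← Finset.add_sum_erase Finset.univ (fun l => Function.update d j (d j - 1) l)
        (Finset.mem_univ j), Function.update_self, ← add_assoc]
    congr 1
    · omega
    · refine Finset.sum_congr rfl fun l hl => ?_
      rw [Function.update_of_ne (Finset.ne_of_mem_erase hl)]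
  refine ⟨j, h6, by omega, fun l => by rw [h6]; exact h5 l, ?_, ?_, ?_⟩
  · refine ⟨Fintype.equivFinOfCardEq ?_⟩
    have h9 := Fintype.card_congr e
    rw [Fintype.card_sigma] at h9 ⊢
    simp only [Fintype.card_fin] at h9 ⊢
    omega
  · intro k l hkl
    exact h.1 (Fin.succ_le_succ_iff.2 hkl)
  · have h9 := h7 (fun n => (Multiset.range n).map Nat.succ) {d j} (by
      obtain ⟨n, hn⟩ : ∃ n, d j = n + 1 := ⟨d j - 1, by omega⟩
      simp only [hn, Nat.add_sub_cancel]
      rw [Multiset.range_succ, Multiset.map_cons, Multiset.singleton_add])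
    rw [← h.2, Fin.univ_succ] at h9
    simp only [Finset.cons_val, Finset.map_val, Multiset.map_cons, Multiset.map_map] at h9
    rw [← h6, Multiset.singleton_add, Multiset.cons_inj_right] at h9
    exact h9

end Pool.Agent.K1H70.KR

namespace Pool.Agent.K1H70.KR

theorem map_univ_sum {α β : Type} [Fintype α] (f : α → β) :
    Finset.univ.val.map f = ∑ a, ({f a} : Multiset β) := by
  have h := Multiset.sum_map_singleton (Finset.univ.val.map f)
  rw [Multiset.map_map] at h
  exact h.symm

/-- Each `d` has a profile. -/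
theorem Prof.exists {m r : ℕ} (d : Fin r → ℕ) (e : (Σ j, Fin (d j)) ≃ Fin m) :
    ∃ c : Fin m → ℕ, Prof d c := by
  classical
  set c0 : Fin m → ℕ := fun k => ((e.symm k).2 : ℕ) + 1 with hc0
  set f : Fin m → ℕᵒᵈ := fun k => OrderDual.toDual (c0 k) with hf
  refine ⟨c0 ∘ Tuple.sort f, ?_, ?_⟩
  · intro k l hkl
    exact Tuple.monotone_sort f hkl
  · rw [map_univ_sum]
    have h1 : ∑ a, ({(c0 ∘ Tuple.sort f) a} : Multiset ℕ) = ∑ a, ({c0 a} : Multiset ℕ) :=
      Equiv.sum_comp (Tuple.sort f) fun a => ({c0 a} : Multiset ℕ)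
    rw [h1, ← Equiv.sum_comp e fun a => ({c0 a} : Multiset ℕ), Fintype.sum_sigma]
    refine Finset.sum_congr rfl fun j _ => ?_
    have h3 : ∀ i : Fin (d j), c0 (e ⟨j, i⟩) = (i : ℕ) + 1 := by
      intro i
      change ((e.symm (e ⟨j, i⟩)).2 : ℕ) + 1 = _
      rw [Equiv.symm_apply_apply]
    simp only [h3]
    rw [Fin.sum_univ_eq_sum_range (fun i => ({i + 1} : Multiset ℕ)) (d j)]
    have h2 := Multiset.sum_map_singleton ((Multiset.range (d j)).map Nat.succ)
    rw [Multiset.map_map] at h2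
    exact h2

end Pool.Agent.K1H70.KR
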