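import Pool.Agent.K1H65.KR.Reyn
import Pool.Agent.K1H69.KR.Lem
import Pool.Agent.K1H31.KR.Slc
import Pool.Agent.K1H24.KR.Red
import Pool.Agent.K1H24.KR.Det
import Pool.Agent.K1H70.KR.Prf

set_option autoImplicit false
set_option linter.unusedSectionVars false
set_option linter.unusedVariables false

/-! # Krylov determinants: the step of the functional equation -/

namespace Pool.Agent.K1H70.KR

open MvPolynomial

section

variable {σ : Type} [Fintype σ] [DecidableEq σ] {m : ℕ}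

/-- commutators do not contribute -/
theorem comm_zero (M : σ → σ → ℝ) (κ : ℝ) (F : MvPolynomial σ ℂ) (h1 : lin M F = (κ : ℂ) • F)
    (h2 : lin (fun u w => M w u) F = (κ : ℂ) • F) (R : Module.End ℂ (MvPolynomial σ ℂ)) (n : ℕ) :
    fis (F ^ (n + 1)) ((lin M * R - R * lin M - ((κ : ℝ) : ℂ) • R) (F ^ n)) = 0 := by
  have h3 := K1H31.KR.lin_pow M h1 n
  have h4 := K1H31.KR.lin_pow (fun u w => M w u) h2 (n + 1)
  have h5 := K1H69.KR.fis_lin (fun u w => M w u) (F ^ (n + 1)) (R (F ^ n))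
  rw [h4, map_smul, LinearMap.smul_apply, smul_eq_mul] at h5
  rw [LinearMap.sub_apply, LinearMap.sub_apply, LinearMap.smul_apply, Module.End.mul_apply,
    Module.End.mul_apply, h3, map_sub, map_sub, map_smul, map_smul, map_smul, ← h5, smul_eq_mul,
    smul_eq_mul]
  push_cast
  ring

/-- **The pairing on the slice.** -/
theorem pair_sl (v : Fin (m + 1) → σ) (M : Fin m → σ → σ → ℝ) (hv : Function.Injective v)
    (hM : Adm v M) (c : ℕ) (F : MvPolynomial σ ℂ) (hE : Eu v F = (c : ℂ) • F)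
    (h1 : ∀ a, lin (M a) F = 0) (h2 : ∀ a, lin (fun u w => M a w u) F = 0)
    (Q : Module.End ℂ (MvPolynomial σ ℂ)) (hQ : Q ∈ W σ) :
    ∃ (K : ℕ) (Qi : ℕ → Module.End ℂ (MvPolynomial σ ℂ)), (∀ i, Qi i ∈ W σ) ∧
      ∀ n : ℕ, fis (F ^ (n + 1)) (Q (F ^ n)) =
        (((c * (n + 1) + m).factorial : ℂ) / m.factorial) *
          ∑ i ∈ Finset.range K, (n : ℂ) ^ i * fis ((sl v F) ^ (n + 1)) (Qi i ((sl v F) ^ n)) := by
  have hEM : ∀ u w, K1H31.KR.EM v w u = K1H31.KR.EM v u w := by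
    intro u w
    unfold K1H31.KR.EM
    by_cases h : u = w
    · subst h
      rfl
    · have h' : ¬ (w = u ∧ w ∈ Set.range v) := fun h3 => h h3.1.symm
      have h'' : ¬ (u = w ∧ u ∈ Set.range v) := fun h3 => h h3.1
      rw [if_neg h', if_neg h'']
  obtain ⟨P0, R, hP0, hR, hQe, hcomm⟩ := t_REYN σ (Fin m ⊕ Fin m ⊕ Unit)
    (Sum.elim M (Sum.elim (fun a u w => M a w u) fun _ => K1H31.KR.EM v))
    (Sum.elim (fun _ => 0) (Sum.elim (fun _ => 0) fun _ => (c : ℝ)))
    (Sum.elim (fun a => Sum.inr (Sum.inl a)) (Sum.elim (fun a => Sum.inl a)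
      fun _ => Sum.inr (Sum.inr ())))
    (by
      rintro (a | a | _) u w
      · rfl
      · rfl
      · exact (hEM w u))
    (by
      rintro (a | a | _) <;> rfl)
    Q hQ
  have hlE : lin (K1H31.KR.EM v) F = ((c : ℝ) : ℂ) • F := by
    rw [← K1H31.KR.Eu_eq v hv, hE]
    norm_num
  have hlE' : lin (fun u w => K1H31.KR.EM v w u) F = ((c : ℝ) : ℂ) • F := by
    have h3 : (fun u w => K1H31.KR.EM v w u) = K1H31.KR.EM v := by
      funext u w
      exact hEM u w
    rw [h3]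
    exact hlE
  have h3 : ∀ n : ℕ, fis (F ^ (n + 1)) (Q (F ^ n)) = fis (F ^ (n + 1)) (P0 (F ^ n)) := by
    intro n
    rw [hQe, LinearMap.add_apply, map_add, LinearMap.sum_apply, map_sum, Fintype.sum_sum_type,
      Fintype.sum_sum_type]
    simp only [Sum.elim_inl, Sum.elim_inr]
    rw [Finset.sum_eq_zero, Finset.sum_eq_zero, Finset.sum_eq_zero]
    · rw [add_zero, add_zero, add_zero]
    · intro _ _
      exact comm_zero _ _ F hlE hlE' _ n
    · intro a _
      exact comm_zero _ 0 F (by rw [h2, Complex.ofReal_zero, zero_smul])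
        (by rw [Complex.ofReal_zero, zero_smul]; exact h1 a) _ n
    · intro a _
      exact comm_zero _ 0 F (by rw [h1, Complex.ofReal_zero, zero_smul])
        (by rw [Complex.ofReal_zero, zero_smul]; exact h2 a) _ n
  have hp1 : ∀ (n : ℕ) (a : Fin m), lin (M a) (F ^ n) = 0 := by
    intro n a
    have h4 := K1H31.KR.lin_pow (M a) (c := 0) (f := F) (by rw [h1, zero_smul]) n
    rw [h4, mul_zero, zero_smul]
  have hp2 : ∀ (n : ℕ) (a : Fin m), lin (fun u w => M a w u) (F ^ n) = 0 := by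
    intro n a
    have h4 := K1H31.KR.lin_pow (fun u w => M a w u) (c := 0) (f := F) (by rw [h2, zero_smul]) n
    rw [h4, mul_zero, zero_smul]
  have hpE : ∀ n : ℕ, Eu v (F ^ n) = ((c * n : ℕ) : ℂ) • F ^ n := by
    intro n
    rw [K1H31.KR.Eu_eq v hv, K1H31.KR.lin_pow _ hlE n]
    congr 1
    push_cast
    ring
  obtain ⟨K, Qi, hQi, hsl⟩ := K1H31.KR.t_SLC σ m v M hv hM c F hE h1 P0 hP0
  refine ⟨K, Qi, hQi, fun n => ?_⟩
  have h5 : Eu v (P0 (F ^ n)) = ((c * (n + 1) : ℕ) : ℂ) • P0 (F ^ n) := by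
    have h6 := hcomm (Sum.inr (Sum.inr ()))
    simp only [Sum.elim_inr] at h6
    have h7 := congrArg (fun T : Module.End ℂ (MvPolynomial σ ℂ) => T (F ^ n)) h6
    simp only [LinearMap.sub_apply, LinearMap.smul_apply, Module.End.mul_apply] at h7
    rw [← K1H31.KR.Eu_eq v hv, hpE, map_smul, sub_eq_iff_eq_add] at h7
    rw [h7, ← add_smul]
    congr 1
    push_cast
    ring
  have h6 : ∀ a, lin (fun u w => M a w u) (P0 (F ^ n)) = 0 := by
    intro a
    have h6 := hcomm (Sum.inr (Sum.inl a))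
    simp only [Sum.elim_inr, Sum.elim_inl] at h6
    have h7 := congrArg (fun T : Module.End ℂ (MvPolynomial σ ℂ) => T (F ^ n)) h6
    simp only [LinearMap.sub_apply, LinearMap.smul_apply, Module.End.mul_apply] at h7
    rw [hp2, map_zero, sub_zero, Complex.ofReal_zero, zero_smul] at h7
    exact h7
  have h8 := K1H69.KR.t_LEM σ m v M hv hM (c * (n + 1)) (F ^ (n + 1)) (P0 (F ^ n)) (hpE (n + 1)) h5
    (hp1 (n + 1)) h6
  rw [h3, h8, hsl n, map_pow, map_sum]
  congr 1
  refine Finset.sum_congr rfl fun i _ => ?_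
  rw [map_smul, smul_eq_mul]

/-- **The norm on the slice.** -/
theorem norm_sl (v : Fin (m + 1) → σ) (M : Fin m → σ → σ → ℝ) (hv : Function.Injective v)
    (hM : Adm v M) (c : ℕ) (F : MvPolynomial σ ℂ) (hE : Eu v F = (c : ℂ) • F)
    (h1 : ∀ a, lin (M a) F = 0) (h2 : ∀ a, lin (fun u w => M a w u) F = 0) (n : ℕ) :
    fis (F ^ n) (F ^ n) = (((c * n + m).factorial : ℂ) / m.factorial) *
      fis ((sl v F) ^ n) ((sl v F) ^ n) := by
  have hpE : Eu v (F ^ n) = ((c * n : ℕ) : ℂ) • F ^ n := by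
    have hlE : lin (K1H31.KR.EM v) F = (c : ℂ) • F := by
      rw [← K1H31.KR.Eu_eq v hv, hE]
    rw [K1H31.KR.Eu_eq v hv, K1H31.KR.lin_pow _ hlE n]
    congr 1
    push_cast
    ring
  have h8 := K1H69.KR.t_LEM σ m v M hv hM (c * n) (F ^ n) (F ^ n) hpE hpE
    (fun a => by
      rw [K1H31.KR.lin_pow (M a) (c := 0) (f := F) (by rw [h1, zero_smul]) n, mul_zero, zero_smul])
    (fun a => by
      rw [K1H31.KR.lin_pow (fun u w => M a w u) (c := 0) (f := F) (by rw [h2, zero_smul]) n,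
        mul_zero, zero_smul])
  rw [h8, map_pow]

end

end Pool.Agent.K1H70.KR
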