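import Pool.Agent.K1H70.KR.Step

set_option autoImplicit false
set_option linter.unusedSectionVars false
set_option linter.unusedVariables false

/-! # Krylov determinants: the step of the functional equation -/

namespace Pool.Agent.K1H70.KR

open MvPolynomial

variable {m r : ℕ}

/-- the variables of the quotient -/
def io (j : Fin r) : Fin m × (Fin m ⊕ Fin r) → Fin (m + 1) × (Fin (m + 1) ⊕ Fin r)
  | (a, Sum.inl b) => (a.succ, Sum.inl b.succ)
  | (a, Sum.inr l) => if l = j then (a.succ, Sum.inl 0) else (a.succ, Sum.inr l)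

theorem io_fst (j : Fin r) (u : Fin m × (Fin m ⊕ Fin r)) : (io j u).1 = u.1.succ := by
  obtain ⟨a, b | l⟩ := u
  · rfl
  · unfold io
    by_cases h : l = j
    · simp only [if_pos h]
    · simp only [if_neg h]

theorem io_inj (j : Fin r) : Function.Injective (io j : Fin m × (Fin m ⊕ Fin r) → _) := by
  intro u w h
  have h1 := congrArg Prod.fst h
  rw [io_fst, io_fst] at h1
  have h2 := Fin.succ_injective _ h1
  have h3 := congrArg Prod.snd h
  obtain ⟨a, b | l⟩ := u <;> obtain ⟨a', b' | l'⟩ := w
  · simp only [io] at h3 h2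
    rw [h2, Fin.succ_injective _ (Sum.inl_injective h3)]
  · exfalso
    simp only [io] at h3
    by_cases hl : l' = j
    · rw [if_pos hl] at h3
      exact Fin.succ_ne_zero b (Sum.inl_injective h3)
    · rw [if_neg hl] at h3
      cases h3
  · exfalso
    simp only [io] at h3
    by_cases hl : l = j
    · rw [if_pos hl] at h3
      exact Fin.succ_ne_zero b' (Sum.inl_injective h3).symm
    · rw [if_neg hl] at h3
      cases h3
  · simp only [io] at h3 h2
    by_cases hl : l = j
    · by_cases hl' : l' = j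
      · rw [h2, hl, hl']
      · rw [if_pos hl, if_neg hl'] at h3
        cases h3
    · by_cases hl' : l' = j
      · rw [if_neg hl, if_pos hl'] at h3
        cases h3
      · rw [if_neg hl, if_neg hl'] at h3
        rw [h2, Sum.inr_injective h3]

/-- the variables of `v_j` -/
def vj (m : ℕ) (j : Fin r) (a : Fin m) : Fin m × (Fin m ⊕ Fin r) := (a, Sum.inr j)

theorem vj_inj (j : Fin r) : Function.Injective (vj m j) := fun a b h => congrArg Prod.fst h

theorem io_out (j : Fin r) (u : Fin m × (Fin m ⊕ Fin r)) : io j u ∉ Set.range (vj (m + 1) j) := by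
  rintro ⟨a, ha⟩
  have h3 := congrArg Prod.snd ha
  obtain ⟨a, b | l⟩ := u
  · simp only [io, vj] at h3
    cases h3
  · simp only [io, vj] at h3
    by_cases hl : l = j
    · rw [if_pos hl] at h3
      cases h3
    · rw [if_neg hl] at h3
      exact hl (Sum.inr_injective h3).symm

/-- **The restriction of the determinant to the slice.** -/
theorem sl_kry (d : Fin r → ℕ) (e : (Σ j, Fin (d j)) ≃ Fin (m + 1)) (j : Fin r)
    (hj : 0 < d j) (hmax : ∀ l, d l ≤ d j)
    (e' : (Σ l, Fin (Function.update d j (d j - 1) l)) ≃ Fin m) :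
    ∃ ε : ℂ, ε * ε = 1 ∧ sl (vj (m + 1) j) (map (Int.castRingHom ℂ) (kry d e)) =
      ε • rename (io j) (map (Int.castRingHom ℂ) (kry (Function.update d j (d j - 1)) e')) := by
  obtain ⟨ε, hε, hstep⟩ := K1H24.KR.t_DET m r d e j hj hmax e'
  refine ⟨(ε : ℂ), by rcases hε with rfl | rfl <;> norm_num, ?_⟩
  have h1 := hstep (MvPolynomial (Fin (m + 1) × (Fin (m + 1) ⊕ Fin r)) ℂ)
    (fun u => sl (vj (m + 1) j) (X u)) (by
      intro a
      by_cases ha : a = 0
      · subst ha
        rw [if_pos rfl]
        exact K1H31.KR.sl_zero (vj (m + 1) j)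
      · rw [if_neg ha]
        obtain ⟨b, rfl⟩ := Fin.exists_succ_eq.2 ha
        exact K1H31.KR.sl_succ (vj (m + 1) j) (vj_inj j) b)
  have h2 : nx j (fun u => sl (vj (m + 1) j) (X u : MvPolynomial _ ℂ)) =
      fun u => rename (io j) (X u : MvPolynomial _ ℂ) := by
    funext u
    rw [rename_X, ← K1H31.KR.sl_out (vj (m + 1) j) (io_out j u)]
    obtain ⟨a, b | l⟩ := u
    · rfl
    · simp only [nx, io]
      by_cases hl : l = j
      · rw [if_pos hl, if_pos hl]
      · rw [if_neg hl, if_neg hl]
  rw [h2] at h1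
  rw [kry_map, kry_map]
  have h3 := kdet_map (sl (vj (m + 1) j)).toRingHom d e X
  have h4 := kdet_map (rename (io j) : MvPolynomial _ ℂ →ₐ[ℂ] MvPolynomial _ ℂ).toRingHom
    (Function.update d j (d j - 1)) e' X
  refine h3.trans (h1.trans ?_)
  rw [Algebra.smul_def, algebraMap_eq, map_intCast]
  congr 1
  exact h4.symm

end Pool.Agent.K1H70.KR
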