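import Pool.Agent.K1H70.KR.Step3
import Pool.Agent.TH192.DT.TopZ

set_option autoImplicit false

/-! # Krylov determinants: topological zeta functions -/

namespace Pool.Agent.K1H70.KR

open Polynomial Pool.Agent.TH192.DT

/-- If the product of the factors divides `b`, then `b` times the topological zeta function is a polynomial. -/
theorem topZ_mul {ι : Type} [Fintype ι] (ν N : ι → ℕ) (χ : Finset ι → ℤ) (b : ℂ[X])
    (hν : ∀ i, 0 < ν i) (hb : (∏ i, (C (N i : ℂ) * X + C (ν i : ℂ))) ∣ b) :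
    ∃ P : ℂ[X], algebraMap ℂ[X] (RatFunc ℂ) b * topZ ν N χ = algebraMap ℂ[X] (RatFunc ℂ) P := by
  classical
  obtain ⟨q, hq⟩ := hb
  have h0 : ∀ i, ((N i : RatFunc ℂ) * RatFunc.X + (ν i : RatFunc ℂ)) =
      algebraMap ℂ[X] (RatFunc ℂ) (C (N i : ℂ) * X + C (ν i : ℂ)) := by
    intro i
    simp
  have h1 : ∀ i, (C (N i : ℂ) * X + C (ν i : ℂ) : ℂ[X]) ≠ 0 := by
    intro i h
    have h2 := congrArg (Polynomial.eval 0) h
    simp only [eval_add, eval_mul, eval_C, eval_X, mul_zero, zero_add, eval_zero] at h2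
    exact (hν i).ne' (by exact_mod_cast h2)
  refine ⟨∑ I : Finset ι, C ((χ I : ℤ) : ℂ) * ((∏ i ∈ Finset.univ \ I, (C (N i : ℂ) * X + C (ν i : ℂ))) * q), ?_⟩
  rw [topZ, Finset.mul_sum, map_sum]
  refine Finset.sum_congr rfl fun I _ => ?_
  have h2 : (∏ i, (C (N i : ℂ) * X + C (ν i : ℂ)) : ℂ[X]) =
      (∏ i ∈ Finset.univ \ I, (C (N i : ℂ) * X + C (ν i : ℂ))) * ∏ i ∈ I, (C (N i : ℂ) * X + C (ν i : ℂ)) :=
    (Finset.prod_sdiff (Finset.subset_univ I)).symm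
  have h3 : ∏ i ∈ I, ((N i : RatFunc ℂ) * RatFunc.X + (ν i : RatFunc ℂ))⁻¹ =
      (algebraMap ℂ[X] (RatFunc ℂ) (∏ i ∈ I, (C (N i : ℂ) * X + C (ν i : ℂ))))⁻¹ := by
    rw [map_prod, ← Finset.prod_inv_distrib]
    exact Finset.prod_congr rfl fun i _ => by rw [h0]
  have h4 : algebraMap ℂ[X] (RatFunc ℂ) (∏ i ∈ I, (C (N i : ℂ) * X + C (ν i : ℂ))) ≠ 0 := by
    rw [Ne, map_eq_zero_iff _ (IsFractionRing.injective ℂ[X] (RatFunc ℂ))]
    exact Finset.prod_ne_zero_iff.2 fun i _ => h1 i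
  rw [h3, hq, h2, map_mul, map_mul, map_mul, map_mul, RatFunc.algebraMap_C]
  field_simp

end Pool.Agent.K1H70.KR
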